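import Mathlib
import Pool.Agent.V11170.Tools

set_option autoImplicit false

namespace Pool.Agent.Results.MP_071fcf_co.ThreeColumns

open Finset Pool.Agent.V11170.SemiBaxter Pool.Agent.V11170.Tools

/-- The order of the rectangular poset `EN_{s,t}` on the labels `0, …, st - 1`
(the label `x = jt + m` stands for the pair `(j + 1, m + 1)`): `x ≼ y` iff `m(x) ≤ m(y)` and
`j(x) ≥ j(y)`. -/
def Prec (t x y : ℕ) : Prop := x % t ≤ y % t ∧ y / t ≤ x / t

/-- `π` is a linear extension of `EN_{s,t}`. -/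
def IsLinExt {s t : ℕ} (π : Equiv.Perm (Fin (s * t))) : Prop :=
  ∀ i j, Prec t (π i) (π j) → i ≤ j

/-- `π` avoids `2143`. -/
def Avoids2143 {n : ℕ} (π : Equiv.Perm (Fin n)) : Prop :=
  ∀ i j k l, i < j → j < k → k < l → ¬ (π j < π i ∧ π i < π l ∧ π l < π k)

open scoped Classical in
/-- The set `EN_{s,t}(2143)`. -/
noncomputable def EN (s t : ℕ) : Finset (Equiv.Perm (Fin (s * t))) :=
  univ.filter (fun π => IsLinExt π ∧ Avoids2143 π)

/-- The characterization of the positions: columns and chains are ordered, and every tooth comes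
entirely before the next but one. -/
def Char (s : ℕ) (p : ℕ → ℕ) : Prop :=
  (∀ x y, x < s * 3 → y < s * 3 → x ≠ y → x % 3 ≤ y % 3 → y / 3 ≤ x / 3 → p x < p y) ∧
  (∀ x y, x < s * 3 → y < s * 3 → y / 3 + 2 ≤ x / 3 → p x < p y)

theorem mem_EN_iff {s : ℕ} (π : Equiv.Perm (Fin (s * 3))) :
    π ∈ EN s 3 ↔ Char s (exP π.symm) := by
  classical
  unfold EN
  rw [mem_filter]
  obtain ⟨p, hp⟩ : ∃ p, p = exP π.symm := ⟨_, rfl⟩
  have hinj : ∀ x y, x < s * 3 → y < s * 3 → x ≠ y → p x ≠ p y := by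
    intro x y hx hy hxy
    rw [hp]
    exact exP_inj _ hx hy hxy
  rw [← hp]
  constructor
  · rintro ⟨_, hlin, hav⟩
    have hl : ∀ x y, x < s * 3 → y < s * 3 → x ≠ y → x % 3 ≤ y % 3 → y / 3 ≤ x / 3 →
        p x < p y := by
      intro x y hx hy hxy h1 h2
      obtain ⟨i, hi, hi'⟩ := exists_label π hx
      obtain ⟨j, hj, hj'⟩ := exists_label π hy
      have h3 : (i : ℕ) ≤ j := hlin i j ⟨by rw [hi, hj]; exact h1, by rw [hi, hj]; exact h2⟩
      have h4 := hinj x y hx hy hxy
      rw [hp] at h4 ⊢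
      omega
    refine ⟨hl, ?_⟩
    intro x y hx hy h
    by_cases hm : x % 3 ≤ y % 3
    · exact hl x y hx hy (by omega) hm (by omega)
    · by_contra hc
      have h2 := hinj x y hx hy (by omega)
      have h3 : p y < p x := by omega
      have h4 := hl (x / 3 * 3 - 3 + y % 3) y (by omega) hy (by omega) (by omega) (by omega)
      have h5 := hl x (x - 3) hx (by omega) (by omega) (by omega) (by omega)
      obtain ⟨a, ha, ha'⟩ := exists_label π (show x / 3 * 3 - 3 + y % 3 < s * 3 by omega)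
      obtain ⟨b, hb, hb'⟩ := exists_label π hy
      obtain ⟨c, hc1, hc'⟩ := exists_label π hx
      obtain ⟨d, hd, hd'⟩ := exists_label π (show x - 3 < s * 3 by omega)
      rw [hp] at h3 h4 h5
      refine hav a b c d ?_ ?_ ?_ ⟨?_, ?_, ?_⟩
      · show (a : ℕ) < b
        omega
      · show (b : ℕ) < c
        omega
      · show (c : ℕ) < d
        omega
      · show (π b : ℕ) < π a
        omega
      · show (π a : ℕ) < π d
        omega
      · show (π d : ℕ) < π c
        omega
  · rintro ⟨h1, h2⟩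
    have hpos : ∀ i : Fin (s * 3), p (π i) = i := fun i => by rw [hp]; exact exP_symm π i
    -- descending pairs lie in different teeth
    have hdesc : ∀ x y, x < s * 3 → y < s * 3 → y < x → p x < p y → y / 3 < x / 3 := by
      intro x y hx hy hxy hpxy
      by_contra hc
      have := h1 y x hy hx (by omega) (by omega) (by omega)
      omega
    refine ⟨mem_univ _, ?_, ?_⟩
    · rintro i j ⟨g1, g2⟩
      by_contra hc
      have hji : (j : ℕ) < i := not_le.mp hc
      have hne : (π i : ℕ) ≠ π j := fun h => by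
        have := π.injective (Fin.ext h)
        rw [this] at hji
        omega
      have := h1 (π i) (π j) (π i).is_lt (π j).is_lt hne g1 g2
      rw [hpos, hpos] at this
      omega
    · rintro i j k l hij hjk hkl ⟨g1, g2, g3⟩
      have hij' : (i : ℕ) < j := hij
      have hjk' : (j : ℕ) < k := hjk
      have hkl' : (k : ℕ) < l := hkl
      have g1' : (π j : ℕ) < π i := g1
      have g2' : (π i : ℕ) < π l := g2
      have g3' : (π l : ℕ) < π k := g3
      have a1 := hdesc (π i) (π j) (π i).is_lt (π j).is_lt g1' (by rw [hpos, hpos]; omega)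
      have a2 := hdesc (π k) (π l) (π k).is_lt (π l).is_lt g3' (by rw [hpos, hpos]; omega)
      have a3 := h2 (π k) (π j) (π k).is_lt (π j).is_lt (by omega)
      rw [hpos, hpos] at a3
      omega

/-! ### types of adjacent teeth -/

/-- Is the lower `a` before the upper `b`? -/
def al (x : ℕ) : ℕ := if x = 3 ∨ x = 4 then 1 else 0
/-- Is the lower `a` before the upper `c`? -/
def ga (x : ℕ) : ℕ := if x = 0 then 0 else 1
/-- Is the lower `b` before the upper `c`? -/
def be (x : ℕ) : ℕ := if x = 2 ∨ x = 4 then 1 else 0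

/-- Admissible sequences of types. -/
def Valid (u : ℕ → ℕ) : Prop := ∀ j, be (u (j + 1)) = 1 → al (u j) = 0

/-- Model of the positions determined by the types `u`; `u j` is the type of the teeth
`j` and `j - 1`. -/
def key (s : ℕ) (u : ℕ → ℕ) (x : ℕ) : ℕ :=
  if x % 3 = 0 then 10 * (s - x / 3)
  else if x % 3 = 1 then
    (if al (u (x / 3)) = 1 then 10 * (s - x / 3) + 11
    else if be (u (x / 3 + 1)) = 1 then 10 * (s - x / 3) + 2 else 10 * (s - x / 3) + 4)
  else (if ga (u (x / 3)) = 1 then 10 * (s - x / 3) + 13 else 10 * (s - x / 3) + 5)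

theorem key_bounds (s : ℕ) (u : ℕ → ℕ) (x : ℕ) :
    10 * (s - x / 3) ≤ key s u x ∧ key s u x ≤ 10 * (s - x / 3) + 13 := by
  unfold key
  split_ifs <;> omega

theorem al_le_ga (x : ℕ) : al x ≤ ga x := by
  unfold al ga
  split_ifs <;> omega

theorem be_le_ga (x : ℕ) : be x ≤ ga x := by
  unfold be ga
  split_ifs <;> omega

theorem al_le (x : ℕ) : al x ≤ 1 := by
  unfold al
  split_ifs <;> omega

theorem be_le (x : ℕ) : be x ≤ 1 := by
  unfold be
  split_ifs <;> omega

theorem ga_le (x : ℕ) : ga x ≤ 1 := by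
  unfold ga
  split_ifs <;> omega

theorem key0 (s : ℕ) (u : ℕ → ℕ) (q : ℕ) : key s u (3 * q) = 10 * (s - q) := by
  unfold key
  rw [if_pos (by omega), show 3 * q / 3 = q by omega]

theorem key1 (s : ℕ) (u : ℕ → ℕ) (q : ℕ) : key s u (3 * q + 1) =
    if al (u q) = 1 then 10 * (s - q) + 11
    else if be (u (q + 1)) = 1 then 10 * (s - q) + 2 else 10 * (s - q) + 4 := by
  unfold key
  rw [if_neg (by omega), if_pos (by omega), show (3 * q + 1) / 3 = q by omega]

theorem key2 (s : ℕ) (u : ℕ → ℕ) (q : ℕ) : key s u (3 * q + 2) =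
    if ga (u q) = 1 then 10 * (s - q) + 13 else 10 * (s - q) + 5 := by
  unfold key
  rw [if_neg (by omega), if_neg (by omega), show (3 * q + 2) / 3 = q by omega]

/-- Comparisons inside a tooth. -/
theorem key_same {s : ℕ} (u : ℕ → ℕ) (q : ℕ) :
    key s u (3 * q) < key s u (3 * q + 1) ∧ key s u (3 * q + 1) < key s u (3 * q + 2) := by
  have h1 := al_le_ga (u q)
  have h2 := ga_le (u q)
  rw [key0, key1, key2]
  constructor
  · split_ifs <;> omega
  · split_ifs <;> omega

/-- Comparisons of far teeth. -/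
theorem key_far {s : ℕ} (u : ℕ → ℕ) {x y : ℕ} (hx : x < s * 3) (h : y / 3 + 2 ≤ x / 3) :
    key s u x < key s u y := by
  have h1 := key_bounds s u x
  have h2 := key_bounds s u y
  omega

/-- Comparisons of adjacent teeth. -/
theorem key_adj {s : ℕ} {u : ℕ → ℕ} (hu : Valid u) {q : ℕ} (hq : q + 1 < s) :
    (key s u (3 * (q + 1)) < key s u (3 * q) ∧ key s u (3 * (q + 1)) < key s u (3 * q + 1) ∧
      key s u (3 * (q + 1)) < key s u (3 * q + 2)) ∧
    (key s u (3 * (q + 1) + 1) < key s u (3 * q + 1) ∧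
      key s u (3 * (q + 1) + 1) < key s u (3 * q + 2)) ∧
    key s u (3 * (q + 1) + 2) < key s u (3 * q + 2) ∧
    (key s u (3 * q) < key s u (3 * (q + 1) + 1) ↔ al (u (q + 1)) = 1) ∧
    (key s u (3 * q) < key s u (3 * (q + 1) + 2) ↔ ga (u (q + 1)) = 1) ∧
    (key s u (3 * q + 1) < key s u (3 * (q + 1) + 2) ↔ be (u (q + 1)) = 1) ∧
    key s u (3 * q) ≠ key s u (3 * (q + 1) + 1) ∧ key s u (3 * q) ≠ key s u (3 * (q + 1) + 2) ∧
    key s u (3 * q + 1) ≠ key s u (3 * (q + 1) + 2) := by
  have h1 := al_le_ga (u (q + 1))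
  have h2 := ga_le (u (q + 1))
  have h3 := be_le_ga (u (q + 1))
  have h4 := hu q
  have h5 := al_le (u (q + 1))
  have h6 := be_le (u (q + 1))
  rw [key0, key0, key1, key1, key2, key2]
  refine ⟨⟨?_, ?_, ?_⟩, ⟨?_, ?_⟩, ?_, ?_, ?_, ?_, ?_, ?_, ?_⟩ <;> first | omega | (split_ifs <;> omega)

/-- The types determine all comparisons. -/
theorem dichotomy {s : ℕ} {p : ℕ → ℕ} {u : ℕ → ℕ} (hp : Char s p) (hu : Valid u)
    (hinj : ∀ x y, x < s * 3 → y < s * 3 → x ≠ y → p x ≠ p y)
    (hc : ∀ q, q + 1 < s →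
      (al (u (q + 1)) = 1 ↔ p (3 * q) < p (3 * (q + 1) + 1)) ∧
      (ga (u (q + 1)) = 1 ↔ p (3 * q) < p (3 * (q + 1) + 2)) ∧
      (be (u (q + 1)) = 1 ↔ p (3 * q + 1) < p (3 * (q + 1) + 2)))
    {x y : ℕ} (hx : x < s * 3) (hy : y < s * 3) (hxy : x ≠ y) :
    (p x < p y ∧ key s u x < key s u y) ∨ (p y < p x ∧ key s u y < key s u x) := by
  obtain ⟨h1, h2⟩ := hp
  have main : ∀ x y, x < s * 3 → y < s * 3 → x ≠ y → y / 3 ≤ x / 3 →
      (p x < p y ∧ key s u x < key s u y) ∨ (p y < p x ∧ key s u y < key s u x) := by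
    intro x y hx hy hne hq
    by_cases hfar : y / 3 + 2 ≤ x / 3
    · exact Or.inl ⟨h2 x y hx hy hfar, key_far u hx hfar⟩
    by_cases hsame : y / 3 = x / 3
    · obtain ⟨q, hqe⟩ : ∃ q, q = x / 3 := ⟨_, rfl⟩
      have k := key_same (s := s) u q
      have cx : x = 3 * q ∨ x = 3 * q + 1 ∨ x = 3 * q + 2 := by omega
      have cy : y = 3 * q ∨ y = 3 * q + 1 ∨ y = 3 * q + 2 := by omega
      rcases Nat.lt_or_gt_of_ne hne with h | h
      · left
        refine ⟨h1 x y hx hy hne (by omega) (by omega), ?_⟩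
        rcases cx with rfl | rfl | rfl <;> rcases cy with rfl | rfl | rfl <;> omega
      · right
        refine ⟨h1 y x hy hx (by omega) (by omega) (by omega), ?_⟩
        rcases cx with rfl | rfl | rfl <;> rcases cy with rfl | rfl | rfl <;> omega
    · obtain ⟨q, hqe⟩ : ∃ q, q = y / 3 := ⟨_, rfl⟩
      have k := key_adj hu (show q + 1 < s by omega)
      have c := hc q (by omega)
      have cx : x = 3 * (q + 1) ∨ x = 3 * (q + 1) + 1 ∨ x = 3 * (q + 1) + 2 := by omega
      have cy : y = 3 * q ∨ y = 3 * q + 1 ∨ y = 3 * q + 2 := by omega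
      by_cases hm : x % 3 ≤ y % 3
      · left
        refine ⟨h1 x y hx hy hne hm (by omega), ?_⟩
        rcases cx with rfl | rfl | rfl <;> rcases cy with rfl | rfl | rfl <;> omega
      · have hpne := hinj x y hx hy hne
        rcases cx with rfl | rfl | rfl <;> rcases cy with rfl | rfl | rfl <;> omega
  rcases Nat.le_total (y / 3) (x / 3) with h | h
  · exact main x y hx hy hxy h
  · exact (main y x hy hx hxy.symm h).symm

theorem char_key {s : ℕ} {u : ℕ → ℕ} (hu : Valid u) : Char s (key s u) := by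
  refine ⟨fun x y hx hy hne hm hq => ?_, fun x y hx _ h => key_far u hx h⟩
  by_cases hfar : y / 3 + 2 ≤ x / 3
  · exact key_far u hx hfar
  by_cases hsame : y / 3 = x / 3
  · obtain ⟨q, hqe⟩ : ∃ q, q = x / 3 := ⟨_, rfl⟩
    have k := key_same (s := s) u q
    have cx : x = 3 * q ∨ x = 3 * q + 1 ∨ x = 3 * q + 2 := by omega
    have cy : y = 3 * q ∨ y = 3 * q + 1 ∨ y = 3 * q + 2 := by omega
    rcases cx with rfl | rfl | rfl <;> rcases cy with rfl | rfl | rfl <;> omega
  · obtain ⟨q, hqe⟩ : ∃ q, q = y / 3 := ⟨_, rfl⟩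
    have k := key_adj hu (show q + 1 < s by omega)
    have cx : x = 3 * (q + 1) ∨ x = 3 * (q + 1) + 1 ∨ x = 3 * (q + 1) + 2 := by omega
    have cy : y = 3 * q ∨ y = 3 * q + 1 ∨ y = 3 * q + 2 := by omega
    rcases cx with rfl | rfl | rfl <;> rcases cy with rfl | rfl | rfl <;> omega

theorem key_inj {s : ℕ} {u : ℕ → ℕ} (hu : Valid u) {x y : ℕ} (hx : x < s * 3)
    (hy : y < s * 3) (hxy : x ≠ y) : key s u x ≠ key s u y := by
  have main : ∀ x y, x < s * 3 → y < s * 3 → x ≠ y → y / 3 ≤ x / 3 →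
      key s u x ≠ key s u y := by
    intro x y hx hy hne hq
    by_cases hfar : y / 3 + 2 ≤ x / 3
    · exact (key_far u hx hfar).ne
    by_cases hsame : y / 3 = x / 3
    · obtain ⟨q, hqe⟩ : ∃ q, q = x / 3 := ⟨_, rfl⟩
      have k := key_same (s := s) u q
      have cx : x = 3 * q ∨ x = 3 * q + 1 ∨ x = 3 * q + 2 := by omega
      have cy : y = 3 * q ∨ y = 3 * q + 1 ∨ y = 3 * q + 2 := by omega
      rcases cx with rfl | rfl | rfl <;> rcases cy with rfl | rfl | rfl <;> omega
    · obtain ⟨q, hqe⟩ : ∃ q, q = y / 3 := ⟨_, rfl⟩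
      have k := key_adj hu (show q + 1 < s by omega)
      have cx : x = 3 * (q + 1) ∨ x = 3 * (q + 1) + 1 ∨ x = 3 * (q + 1) + 2 := by omega
      have cy : y = 3 * q ∨ y = 3 * q + 1 ∨ y = 3 * q + 2 := by omega
      rcases cx with rfl | rfl | rfl <;> rcases cy with rfl | rfl | rfl <;> omega
  rcases Nat.le_total (y / 3) (x / 3) with h | h
  · exact main x y hx hy hxy h
  · exact (main y x hy hx hxy.symm h).symm

theorem exists_pos (s : ℕ) {u : ℕ → ℕ} (hu : Valid u) : ∃ σ : Equiv.Perm (Fin (s * 3)),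
    ∀ i j : Fin (s * 3), σ i < σ j ↔ key s u i < key s u j := by
  apply exists_perm (fun i : Fin (s * 3) => key s u i)
  intro i j h
  by_contra hne
  exact key_inj hu i.is_lt j.is_lt (fun h' => hne (Fin.ext h')) h

/-- The linear extension with the types `u`. -/
noncomputable def ext (s : ℕ) {u : ℕ → ℕ} (hu : Valid u) : Equiv.Perm (Fin (s * 3)) :=
  (exists_pos s hu).choose.symm

theorem ext_spec (s : ℕ) {u : ℕ → ℕ} (hu : Valid u) (i j : Fin (s * 3)) :
    (ext s hu).symm i < (ext s hu).symm j ↔ key s u i < key s u j :=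
  (exists_pos s hu).choose_spec i j

theorem ext_spec' (s : ℕ) {u : ℕ → ℕ} (hu : Valid u) {x y : ℕ} (hx : x < s * 3)
    (hy : y < s * 3) :
    exP (ext s hu).symm x < exP (ext s hu).symm y ↔ key s u x < key s u y := by
  rw [exP_of_lt _ hx, exP_of_lt _ hy]
  exact ext_spec s hu ⟨x, hx⟩ ⟨y, hy⟩

theorem ext_mem (s : ℕ) {u : ℕ → ℕ} (hu : Valid u) : ext s hu ∈ EN s 3 := by
  rw [mem_EN_iff]
  obtain ⟨h1, h2⟩ := char_key (s := s) hu
  refine ⟨fun x y hx hy hne hm hq => ?_, fun x y hx hy h => ?_⟩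
  · rw [ext_spec' s hu hx hy]
    exact h1 x y hx hy hne hm hq
  · rw [ext_spec' s hu hx hy]
    exact h2 x y hx hy h

/-! ### the number of inversions -/

theorem sum_range_three_mul (s : ℕ) (f : ℕ → ℕ) :
    ∑ x ∈ range (s * 3), f x = ∑ q ∈ range s, (f (3 * q) + f (3 * q + 1) + f (3 * q + 2)) := by
  induction s with
  | zero => simp
  | succ s ih =>
    rw [show (s + 1) * 3 = s * 3 + 1 + 1 + 1 by ring, sum_range_succ, sum_range_succ,
      sum_range_succ, ih, sum_range_succ, show s * 3 = 3 * s by ring]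
    ring

/-- Weight of a type. -/
def wt (x : ℕ) : ℕ := al x + ga x + be x

/-- Indicator of an inversion with larger label `x` and smaller label `y`. -/
def ind (s : ℕ) (u : ℕ → ℕ) (x y : ℕ) : ℕ := if key s u x < key s u y ∧ y < x then 1 else 0

theorem ind_zero {s : ℕ} {u : ℕ → ℕ} {x y : ℕ} (h : x ≤ y) : ind s u x y = 0 := by
  unfold ind
  rw [if_neg]
  omega

theorem ind_one {s : ℕ} {u : ℕ → ℕ} {x y : ℕ} (h : key s u x < key s u y) (h' : y < x) :
    ind s u x y = 1 := if_pos ⟨h, h'⟩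

theorem ind_not {s : ℕ} {u : ℕ → ℕ} {x y b : ℕ} (hb : b ≤ 1) (h : key s u y < key s u x ↔ b = 1)
    (hne : key s u y ≠ key s u x) (h' : y < x) : ind s u x y + b = 1 := by
  unfold ind
  split_ifs <;> omega

/-- Inversions between the teeth `q` and `q'`. -/
def D (s : ℕ) (u : ℕ → ℕ) (q q' : ℕ) : ℕ :=
  (ind s u (3 * q) (3 * q') + ind s u (3 * q) (3 * q' + 1) + ind s u (3 * q) (3 * q' + 2)) +
  (ind s u (3 * q + 1) (3 * q') + ind s u (3 * q + 1) (3 * q' + 1) +
    ind s u (3 * q + 1) (3 * q' + 2)) +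
  (ind s u (3 * q + 2) (3 * q') + ind s u (3 * q + 2) (3 * q' + 1) +
    ind s u (3 * q + 2) (3 * q' + 2))

theorem D_lt {s : ℕ} {u : ℕ → ℕ} {q q' : ℕ} (h : q < q') : D s u q q' = 0 := by
  unfold D
  rw [ind_zero (by omega), ind_zero (by omega), ind_zero (by omega), ind_zero (by omega),
    ind_zero (by omega), ind_zero (by omega), ind_zero (by omega), ind_zero (by omega),
    ind_zero (by omega)]

theorem ind_same {s : ℕ} {u : ℕ → ℕ} {x y : ℕ} (h : key s u y < key s u x) :
    ind s u x y = 0 := by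
  unfold ind
  rw [if_neg]
  omega

theorem D_eq {s : ℕ} {u : ℕ → ℕ} {q : ℕ} : D s u q q = 0 := by
  obtain ⟨h1, h2⟩ := key_same (s := s) u q
  unfold D
  rw [ind_zero (le_refl (3 * q)), ind_zero (show 3 * q ≤ 3 * q + 1 by omega),
    ind_zero (show 3 * q ≤ 3 * q + 2 by omega), ind_same h1, ind_zero (le_refl (3 * q + 1)),
    ind_zero (show 3 * q + 1 ≤ 3 * q + 2 by omega), ind_same (h1.trans h2), ind_same h2,
    ind_zero (le_refl (3 * q + 2))]

theorem D_far {s : ℕ} {u : ℕ → ℕ} {q q' : ℕ} (hq : q < s) (h : q' + 2 ≤ q) :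
    D s u q q' = 9 := by
  unfold D
  rw [ind_one (key_far u (by omega) (by omega)) (by omega),
    ind_one (key_far u (by omega) (by omega)) (by omega),
    ind_one (key_far u (by omega) (by omega)) (by omega),
    ind_one (key_far u (by omega) (by omega)) (by omega),
    ind_one (key_far u (by omega) (by omega)) (by omega),
    ind_one (key_far u (by omega) (by omega)) (by omega),
    ind_one (key_far u (by omega) (by omega)) (by omega),
    ind_one (key_far u (by omega) (by omega)) (by omega),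
    ind_one (key_far u (by omega) (by omega)) (by omega)]

theorem D_adj {s : ℕ} {u : ℕ → ℕ} (hu : Valid u) {q : ℕ} (hq : q + 1 < s) :
    D s u (q + 1) q + wt (u (q + 1)) = 9 := by
  obtain ⟨⟨h1, h2, h3⟩, ⟨h4, h5⟩, h6, h7, h8, h9, h10, h11, h12⟩ := key_adj hu hq
  have e1 := ind_one h1 (by omega)
  have e2 := ind_one h2 (by omega)
  have e3 := ind_one h3 (by omega)
  have e4 := ind_one h4 (by omega)
  have e5 := ind_one h5 (by omega)
  have e6 := ind_one h6 (by omega)
  have e7 := ind_not (al_le _) h7 h10 (by omega)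
  have e8 := ind_not (ga_le _) h8 h11 (by omega)
  have e9 := ind_not (be_le _) h9 h12 (by omega)
  unfold D wt
  omega

theorem inner {s : ℕ} {u : ℕ → ℕ} (hu : Valid u) {q : ℕ} (hq : q + 1 < s) :
    ∑ q' ∈ range s, D s u (q + 1) q' + wt (u (q + 1)) = 9 * (q + 1) := by
  have h1 : ∑ q' ∈ range s, D s u (q + 1) q' = ∑ q' ∈ range (q + 1), D s u (q + 1) q' := by
    symm
    apply sum_subset
    · intro x hx
      rw [mem_range] at hx ⊢
      omega
    · intro x _ hx
      rw [mem_range] at hx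
      rcases Nat.eq_or_lt_of_le (show q + 1 ≤ x by omega) with h | h
      · rw [← h]
        exact D_eq
      · exact D_lt h
  rw [h1, sum_range_succ, add_assoc, D_adj hu hq]
  have h2 : ∑ q' ∈ range q, D s u (q + 1) q' = ∑ q' ∈ range q, 9 := by
    apply sum_congr rfl
    intro x hx
    rw [mem_range] at hx
    exact D_far hq (by omega)
  rw [h2, sum_const, card_range, smul_eq_mul]
  ring

theorem inv_ext (n : ℕ) {u : ℕ → ℕ} (hu : Valid u) :
    inv (ext (n + 1) hu) + ∑ i ∈ range n, wt (u (i + 1)) = 9 * (n + 1).choose 2 := by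
  have h1 : inv (ext (n + 1) hu) = ∑ q ∈ range (n + 1), ∑ q' ∈ range (n + 1),
      D (n + 1) u q q' := by
    rw [inv_eq_sum (ext (n + 1) hu) (key (n + 1) u) (ext_spec (n + 1) hu), sum_range_three_mul]
    apply sum_congr rfl
    intro q _
    rw [sum_range_three_mul, sum_range_three_mul, sum_range_three_mul, ← sum_add_distrib,
      ← sum_add_distrib]
    rfl
  have h0 : ∑ q' ∈ range (n + 1), D (n + 1) u 0 q' = 0 := by
    apply sum_eq_zero
    intro x _
    rcases Nat.eq_zero_or_pos x with h | h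
    · rw [h]
      exact D_eq
    · exact D_lt h
  rw [h1, sum_range_succ', h0, Nat.add_zero, ← sum_add_distrib]
  have h2 : ∑ q ∈ range n, (∑ q' ∈ range (n + 1), D (n + 1) u (q + 1) q' + wt (u (q + 1))) =
      ∑ q ∈ range n, 9 * (q + 1) := by
    apply sum_congr rfl
    intro q hq
    rw [mem_range] at hq
    exact inner hu (by omega)
  rw [h2]
  clear h0 h1 h2
  induction n with
  | zero => simp
  | succ n ih =>
    rw [sum_range_succ, ih, Nat.choose_succ_succ (n + 1) 1, Nat.choose_one_right]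
    ring

/-! ### sequences of types -/

/-- The types as a total function. -/
def tot {n : ℕ} (c : Fin n → Fin 5) (q : ℕ) : ℕ :=
  if q = 0 then 0 else ex (fun i => (c i : ℕ)) (q - 1)

theorem tot_zero {n : ℕ} (c : Fin n → Fin 5) : tot c 0 = 0 := if_pos rfl

theorem tot_succ {n : ℕ} (c : Fin n → Fin 5) {i : ℕ} (h : i < n) : tot c (i + 1) = c ⟨i, h⟩ := by
  unfold tot
  rw [if_neg (by omega), Nat.add_sub_cancel, ex_of_lt _ h]

theorem tot_ge {n : ℕ} (c : Fin n → Fin 5) {q : ℕ} (h : n < q) : tot c q = 0 := by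
  unfold tot
  rw [if_neg (by omega), ex_of_ge _ (by omega)]

theorem tot_snoc_le {n : ℕ} (c : Fin n → Fin 5) (x : Fin 5) {q : ℕ} (h : q ≤ n) :
    tot (Fin.snoc c x : Fin (n + 1) → Fin 5) q = tot c q := by
  cases q with
  | zero => rw [tot_zero, tot_zero]
  | succ q =>
    rw [tot_succ _ (by omega), tot_succ _ (by omega)]
    have : (⟨q, by omega⟩ : Fin (n + 1)) = Fin.castSucc ⟨q, by omega⟩ := rfl
    rw [this, Fin.snoc_castSucc]

theorem tot_snoc_top {n : ℕ} (c : Fin n → Fin 5) (x : Fin 5) :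
    tot (Fin.snoc c x : Fin (n + 1) → Fin 5) (n + 1) = x := by
  rw [tot_succ _ (by omega)]
  have : (⟨n, by omega⟩ : Fin (n + 1)) = Fin.last n := rfl
  rw [this, Fin.snoc_last]

theorem valid_snoc {n : ℕ} (c : Fin n → Fin 5) (x : Fin 5) :
    Valid (tot (Fin.snoc c x : Fin (n + 1) → Fin 5)) ↔
      Valid (tot c) ∧ (be x = 1 → al (tot c n) = 0) := by
  constructor
  · intro h
    constructor
    · intro j hj
      by_cases h1 : j < n
      · have := h j
        rw [tot_snoc_le c x (show j + 1 ≤ n by omega), tot_snoc_le c x (show j ≤ n by omega)] at this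
        exact this hj
      · rw [tot_ge c (by omega)] at hj
        exact absurd hj (by decide)
    · have := h n
      rw [tot_snoc_top, tot_snoc_le c x le_rfl] at this
      exact this
  · rintro ⟨h1, h2⟩ j hj
    rcases Nat.lt_trichotomy j n with h | h | h
    · rw [tot_snoc_le c x (by omega)] at hj ⊢
      exact h1 j hj
    · subst h
      rw [tot_snoc_top] at hj
      rw [tot_snoc_le c x le_rfl]
      exact h2 hj
    · rw [tot_ge _ (by omega)] at hj
      exact absurd hj (by decide)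

/-- Total weight of a sequence of types. -/
def W {n : ℕ} (c : Fin n → Fin 5) : ℕ := ∑ i ∈ range n, wt (tot c (i + 1))

theorem W_snoc {n : ℕ} (c : Fin n → Fin 5) (x : Fin 5) :
    W (Fin.snoc c x : Fin (n + 1) → Fin 5) = W c + wt x := by
  unfold W
  rw [sum_range_succ, tot_snoc_top]
  congr 1
  apply sum_congr rfl
  intro i hi
  rw [mem_range] at hi
  rw [tot_snoc_le c x (by omega)]

theorem sum_snoc {M : Type*} [AddCommMonoid M] (n : ℕ) (F : (Fin (n + 1) → Fin 5) → M) :
    ∑ c, F c = ∑ c : Fin n → Fin 5, ∑ x : Fin 5, F (Fin.snoc c x) := by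
  rw [← (Fin.snocEquiv (fun _ => Fin 5)).sum_comp, Fintype.sum_prod_type, sum_comm]
  rfl

open scoped Classical in
/-- The weighted number of admissible sequences. -/
noncomputable def Z {K : Type*} [CommSemiring K] (z : K) (n : ℕ) : K :=
  ∑ c : Fin n → Fin 5, if Valid (tot c) then z ^ W c else 0

open scoped Classical in
/-- The weighted number of admissible sequences whose last type is compatible with `be = 1`. -/
noncomputable def Z' {K : Type*} [CommSemiring K] (z : K) (n : ℕ) : K :=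
  ∑ c : Fin n → Fin 5, if Valid (tot c) ∧ al (tot c n) = 0 then z ^ W c else 0

theorem Z_succ {K : Type*} [CommSemiring K] (z : K) (n : ℕ) :
    Z z (n + 1) = (1 + z + z ^ 2) * Z z n + (z ^ 2 + z ^ 3) * Z' z n := by
  classical
  unfold Z Z'
  rw [sum_snoc, mul_sum, mul_sum, ← sum_add_distrib]
  apply sum_congr rfl
  intro c _
  simp only [valid_snoc, W_snoc, Fin.sum_univ_five]
  by_cases h : Valid (tot c)
  · by_cases h' : al (tot c n) = 0
    · simp only [h, h', implies_true, and_self, if_true]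
      simp only [wt, al, ga, be]
      simp
      ring
    · simp only [h, h', imp_false, true_and, if_false, if_true, mul_zero, add_zero]
      simp only [wt, al, ga, be]
      simp
      ring
  · simp only [h, false_and, if_false, mul_zero, add_zero]

theorem Z'_succ {K : Type*} [CommSemiring K] (z : K) (n : ℕ) :
    Z' z (n + 1) = (1 + z) * Z z n + z ^ 2 * Z' z n := by
  classical
  unfold Z Z'
  rw [sum_snoc, mul_sum, mul_sum, ← sum_add_distrib]
  apply sum_congr rfl
  intro c _
  simp only [valid_snoc, W_snoc, Fin.sum_univ_five, tot_snoc_top]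
  by_cases h : Valid (tot c)
  · by_cases h' : al (tot c n) = 0
    · simp only [h, h', implies_true, and_self, if_true]
      simp only [wt, al, ga, be]
      simp
      ring
    · simp only [h, h', imp_false, true_and, if_false, if_true, mul_zero, add_zero]
      simp only [wt, al, ga, be]
      simp
      ring
  · simp only [h, false_and, if_false, mul_zero, add_zero]

theorem Z_zero {K : Type*} [CommSemiring K] (z : K) : Z z 0 = 1 ∧ Z' z 0 = 1 := by
  classical
  have h : Valid (tot (fun i : Fin 0 => i.elim0)) := by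
    intro j hj
    rw [tot_ge _ (by omega)] at hj
    exact absurd hj (by decide)
  have h0 : al (tot (fun i : Fin 0 => (i.elim0 : Fin 5)) 0) = 0 := by
    rw [tot_zero]
    decide
  have hW : W (fun i : Fin 0 => (i.elim0 : Fin 5)) = 0 := rfl
  have hd : (univ : Finset (Fin 0 → Fin 5)) = {fun i : Fin 0 => (i.elim0 : Fin 5)} := by
    ext c
    rw [mem_singleton]
    exact ⟨fun _ => Subsingleton.elim _ _, fun _ => mem_univ _⟩
  constructor
  · unfold Z
    rw [hd, sum_singleton, if_pos h, hW, pow_zero]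
  · unfold Z'
    rw [hd, sum_singleton, if_pos ⟨h, h0⟩, hW, pow_zero]

open Polynomial in
/-- The polynomials `F_s`. -/
noncomputable def F : ℕ → ℤ[X]
  | 0 => 1
  | 1 => 1
  | s + 2 => (1 + X + 2 * X ^ 2) * F (s + 1) + X ^ 3 * F s

theorem Z_eq {K : Type*} [CommRing K] (z : K) :
    ∀ n, Z z n = Polynomial.aeval z (F (n + 1)) ∧
      (1 + z) * Z' z n = Polynomial.aeval z (F (n + 1)) + z * Polynomial.aeval z (F n) := by
  intro n
  induction n with
  | zero =>
    obtain ⟨h1, h2⟩ := Z_zero z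
    rw [h1, h2]
    simp [F]
  | succ n ih =>
    obtain ⟨h1, h2⟩ := ih
    have h3 : Z z (n + 1) = Polynomial.aeval z (F (n + 2)) := by
      rw [Z_succ, h1]
      have h4 : (z ^ 2 + z ^ 3) * Z' z n = z ^ 2 * ((1 + z) * Z' z n) := by ring
      rw [h4, h2]
      simp only [F, map_add, map_mul, map_pow, Polynomial.aeval_X, map_one, map_ofNat]
      ring
    refine ⟨h3, ?_⟩
    rw [Z'_succ, h1]
    have h4 : (1 + z) * ((1 + z) * (Polynomial.aeval z) (F (n + 1)) + z ^ 2 * Z' z n) =
        (1 + z) ^ 2 * (Polynomial.aeval z) (F (n + 1)) + z ^ 2 * ((1 + z) * Z' z n) := by ring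
    rw [h4, h2]
    simp only [F, map_add, map_mul, map_pow, Polynomial.aeval_X, map_one, map_ofNat]
    ring

/-! ### the bijection -/

/-- The code of a type. -/
noncomputable def code (A G B : Prop) : Fin 5 :=
  open scoped Classical in
  if ¬ G then 0 else if A ∧ B then 4 else if A then 3 else if B then 2 else 1

theorem code_spec {A G B : Prop} (hA : A → G) (hB : B → G) :
    (al (code A G B) = 1 ↔ A) ∧ (ga (code A G B) = 1 ↔ G) ∧ (be (code A G B) = 1 ↔ B) := by
  classical
  unfold code al ga be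
  by_cases hG : G
  · by_cases hA' : A
    · by_cases hB' : B
      · simp [hG, hA', hB']
      · simp [hG, hA', hB']
    · by_cases hB' : B
      · simp [hG, hA', hB']
      · simp [hG, hA', hB']
  · have h1 : ¬ A := fun h => hG (hA h)
    have h2 : ¬ B := fun h => hG (hB h)
    simp [hG, h1, h2]

theorem code_inj {x y : Fin 5} (h1 : al x = 1 ↔ al y = 1) (h2 : ga x = 1 ↔ ga y = 1)
    (h3 : be x = 1 ↔ be y = 1) : x = y := by
  revert x y
  decide

theorem exists_types (n : ℕ) {π : Equiv.Perm (Fin ((n + 1) * 3))} (hπ : π ∈ EN (n + 1) 3) :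
    ∃ c : Fin n → Fin 5, ∃ hv : Valid (tot c), ext (n + 1) hv = π := by
  rw [mem_EN_iff] at hπ
  obtain ⟨p, hpe⟩ : ∃ p, p = exP π.symm := ⟨_, rfl⟩
  have hinj : ∀ x y, x < (n + 1) * 3 → y < (n + 1) * 3 → x ≠ y → p x ≠ p y := by
    intro x y hx hy hxy
    rw [hpe]
    exact exP_inj _ hx hy hxy
  rw [← hpe] at hπ
  obtain ⟨c, hc⟩ : ∃ c : Fin n → Fin 5, c = fun i : Fin n => code
    (p (3 * (i : ℕ)) < p (3 * ((i : ℕ) + 1) + 1)) (p (3 * (i : ℕ)) < p (3 * ((i : ℕ) + 1) + 2))
    (p (3 * (i : ℕ) + 1) < p (3 * ((i : ℕ) + 1) + 2)) := ⟨_, rfl⟩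
  have hspec : ∀ q, q + 1 < n + 1 →
    (al (tot c (q + 1)) = 1 ↔ p (3 * q) < p (3 * (q + 1) + 1)) ∧
    (ga (tot c (q + 1)) = 1 ↔ p (3 * q) < p (3 * (q + 1) + 2)) ∧
    (be (tot c (q + 1)) = 1 ↔ p (3 * q + 1) < p (3 * (q + 1) + 2)) := by
    intro q hq
    rw [tot_succ c (show q < n by omega), hc]
    apply code_spec
    · intro h
      exact h.trans (hπ.1 _ _ (by omega) (by omega) (by omega) (by omega) (by omega))
    · intro h
      exact (hπ.1 (3 * q) (3 * q + 1) (by omega) (by omega) (by omega) (by omega)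
        (by omega)).trans h
  have hv : Valid (tot c) := by
    intro j hj
    cases j with
    | zero =>
      rw [tot_zero]
      decide
    | succ j =>
      by_cases h1 : j + 1 + 1 < n + 1
      · have h2 := (hspec (j + 1) h1).2.2.mp hj
        have h3 := hπ.2 (3 * (j + 1 + 1) + 2) (3 * j) (by omega) (by omega) (by omega)
        have h4 := (hspec j (by omega)).1
        have h5 := al_le (tot c (j + 1))
        by_contra h6
        have h7 := h4.mp (by omega)
        omega
      · rw [tot_ge c (by omega)] at hj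
        exact absurd hj (by decide)
  refine ⟨c, hv, ?_⟩
  apply symm_inj
  apply perm_eq_of_order
  intro x y
  rw [ext_spec]
  have h8 : π.symm x < π.symm y ↔ p x < p y := by
    rw [hpe, exP_of_lt _ x.is_lt, exP_of_lt _ y.is_lt]
    rfl
  rw [h8]
  by_cases hxy : (x : ℕ) = y
  · rw [hxy]
    simp
  · have := dichotomy hπ hv hinj hspec x.is_lt y.is_lt hxy
    omega

theorem ext_injective (n : ℕ) {c c' : Fin n → Fin 5} (hv : Valid (tot c)) (hv' : Valid (tot c'))
    (h : ext (n + 1) hv = ext (n + 1) hv') : c = c' := by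
  funext i
  have hi := i.is_lt
  have k1 := key_adj hv (show (i : ℕ) + 1 < n + 1 by omega)
  have k2 := key_adj hv' (show (i : ℕ) + 1 < n + 1 by omega)
  have hcmp : ∀ x y, x < (n + 1) * 3 → y < (n + 1) * 3 →
      (key (n + 1) (tot c) x < key (n + 1) (tot c) y ↔
        key (n + 1) (tot c') x < key (n + 1) (tot c') y) := by
    intro x y hx hy
    rw [← ext_spec' (n + 1) hv hx hy, ← ext_spec' (n + 1) hv' hx hy, h]
  obtain ⟨_, _, _, k3, k4, k5, _⟩ := k1
  obtain ⟨_, _, _, k6, k7, k8, _⟩ := k2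
  rw [hcmp _ _ (by omega) (by omega), k6] at k3
  rw [hcmp _ _ (by omega) (by omega), k7] at k4
  rw [hcmp _ _ (by omega) (by omega), k8] at k5
  rw [tot_succ c hi, tot_succ c' hi] at k3 k4 k5
  exact code_inj k3.symm k4.symm k5.symm

theorem sum_EN {M : Type*} [AddCommMonoid M] (n : ℕ) (f : ℕ → M) :
    ∑ π ∈ EN (n + 1) 3, f (inv π) = open scoped Classical in
      ∑ c : Fin n → Fin 5, if Valid (tot c) then f (9 * (n + 1).choose 2 - W c) else 0 := by
  classical
  rw [← sum_filter]
  symm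
  apply sum_bij (fun c hc => ext (n + 1) (mem_filter.mp hc).2)
  · intro c hc
    exact ext_mem _ _
  · intro c hc c' hc' h
    exact ext_injective n _ _ h
  · intro π hπ
    obtain ⟨c, hv, h⟩ := exists_types n hπ
    exact ⟨c, mem_filter.mpr ⟨mem_univ _, hv⟩, h⟩
  · intro c hc
    have := inv_ext n (mem_filter.mp hc).2
    congr 1
    unfold W
    omega

theorem W_le (n : ℕ) {c : Fin n → Fin 5} (hv : Valid (tot c)) :
    W c ≤ 9 * (n + 1).choose 2 := by
  have := inv_ext n hv
  unfold W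
  omega

theorem field_identity {K : Type*} [Field K] (z : K) (hz : z ≠ 0) (n : ℕ) :
    ∑ π ∈ EN (n + 1) 3, z ^ inv π =
      z ^ (9 * (n + 1).choose 2) * Polynomial.aeval z⁻¹ (F (n + 1)) := by
  classical
  rw [sum_EN n (fun k => z ^ k), ← (Z_eq z⁻¹ n).1]
  unfold Z
  rw [mul_sum]
  apply sum_congr rfl
  intro c _
  by_cases hv : Valid (tot c)
  · rw [if_pos hv, if_pos hv, pow_sub₀ z hz (W_le n hv), inv_pow]
  · rw [if_neg hv, if_neg hv, mul_zero]

open Polynomial in
theorem reversed_identity (n : ℕ) :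
    ∑ π ∈ EN (n + 1) 3, (X : ℤ[X]) ^ (9 * (n + 1).choose 2 - inv π) = F (n + 1) := by
  classical
  have h1 : Z (X : ℤ[X]) n = F (n + 1) := by
    rw [(Z_eq (X : ℤ[X]) n).1, Polynomial.aeval_def]
    have h2 : ∀ g : ℤ →+* ℤ[X], eval₂ g X (F (n + 1)) = F (n + 1) := by
      intro g
      rw [RingHom.ext_int g C, eval₂_C_X]
    exact h2 _
  rw [sum_EN n (fun k => (X : ℤ[X]) ^ (9 * (n + 1).choose 2 - k)), ← h1]
  unfold Z
  apply sum_congr rfl
  intro c _
  by_cases hv : Valid (tot c)
  · rw [if_pos hv, if_pos hv]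
    have := W_le n hv
    congr 1
    omega
  · rw [if_neg hv, if_neg hv]

open Polynomial in
/-- For every `s ≥ 1`, `EN_{s,3}(2143)(q) = q^{9 (s choose 2)} F_s(1/q)`: as an identity over every
field (in particular for `q` the variable of the field of rational functions), and in the
equivalent polynomial form with reversed exponents. -/
theorem result (s : ℕ) (hs : 1 ≤ s) :
    (∀ (K : Type) [Field K] (q : K), q ≠ 0 →
      ∑ π ∈ EN s 3, q ^ inv π = q ^ (9 * s.choose 2) * Polynomial.aeval q⁻¹ (F s)) ∧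
    (∀ π ∈ EN s 3, inv π ≤ 9 * s.choose 2) ∧
    ∑ π ∈ EN s 3, (X : ℤ[X]) ^ (9 * s.choose 2 - inv π) = F s := by
  obtain ⟨n, rfl⟩ : ∃ n, s = n + 1 := ⟨s - 1, by omega⟩
  refine ⟨fun K _ q hq => field_identity q hq n, fun π hπ => ?_, reversed_identity n⟩
  obtain ⟨c, hv, rfl⟩ := exists_types n hπ
  have := inv_ext n hv
  omega

end Pool.Agent.Results.MP_071fcf_co.ThreeColumns
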